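import Mathlib

/-!
# Eviction number versus independence number

The generalized Petersen graph `P(7,2)` has independence number `5` and eviction number `7`, so the
ratio is `7/5 > 4/3`.
-/

set_option autoImplicit false

namespace Pool.Agent.Results.MP_cdfd58_co.GeneralizedPetersen

/-- `D` is a dominating set of `G`. -/
def IsDominating {V : Type} (G : SimpleGraph V) (D : Finset V) : Prop :=
  ∀ v, v ∈ D ∨ ∃ u ∈ D, G.Adj u v

/-- `D 0, ..., D (l - 1)` is an eternal dominating family of `G` in the eviction game, with sets of
size `k`. -/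
structure IsEternalFamily {V : Type} [DecidableEq V] (G : SimpleGraph V) (k l : ℕ)
    (D : Fin l → Finset V) : Prop where
  pos : 0 < l
  dom : ∀ i, IsDominating G (D i)
  card : ∀ i, (D i).card = k
  move : ∀ i, ∀ v ∈ D i, (∀ w, G.Adj v w → w ∈ D i) ∨
    ∃ w, G.Adj v w ∧ w ∉ D i ∧ ∃ j, j ≠ i ∧ (D i ∪ {w}) \ {v} = D j

/-- The eviction number: the smallest common size of the sets in an eternal dominating family. -/
noncomputable def evictionNumber {V : Type} [DecidableEq V] (G : SimpleGraph V) : ℕ :=
  sInf {k | ∃ (l : ℕ) (D : Fin l → Finset V), IsEternalFamily G k l D}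

/-- The neighbours in `P(7,2)`. -/
def nbrs (x : ℕ) : List ℕ :=
  if x < 7 then [(x + 1) % 7, (x + 6) % 7, x + 7] else [x - 7, 7 + (x + 2) % 7, 7 + (x + 5) % 7]

/-- The generalized Petersen graph `P(7,2)`: the outer cycle `0, 1, ..., 6`, the spokes joining `x`
and `x + 7`, and the inner cycle joining `7 + x` and `7 + (x + 2 mod 7)`. -/
def P72 : SimpleGraph (Fin 14) where
  Adj x y := (y : ℕ) ∈ nbrs x
  symm := ⟨by decide⟩
  loopless := ⟨by decide⟩

instance : DecidableRel P72.Adj := fun x y => inferInstanceAs (Decidable ((y : ℕ) ∈ nbrs x))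

/-- the bit mask of a set -/
def code (D : Finset (Fin 14)) : ℕ := Nat.ofBits fun i : Fin 14 => decide (i ∈ D)

theorem testBit_code (D : Finset (Fin 14)) (j : ℕ) :
    (code D).testBit j = decide (∃ h : j < 14, (⟨j, h⟩ : Fin 14) ∈ D) := by
  unfold code
  by_cases h : j < 14
  · rw [Nat.testBit_ofBits_lt _ _ h]
    simp [h]
  · rw [Nat.testBit_ofBits_ge _ _ (by omega)]
    simp [h]

theorem testBit_code' (D : Finset (Fin 14)) (j : Fin 14) :
    (code D).testBit j = decide (j ∈ D) := by
  rw [testBit_code]
  simp [j.2]

def dom (c : ℕ) : Bool :=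
  (List.range 14).all fun x => c.testBit x || (nbrs x).any fun y => c.testBit y

def move (c v w : ℕ) : ℕ := (c ||| 2 ^ w) ^^^ 2 ^ v

def stepOK (c v dead : ℕ) : Bool :=
  c.testBit v && (nbrs v).any (fun w => !c.testBit w) &&
    (nbrs v).all (fun w => c.testBit w || (!dom (move c v w) || dead.testBit (move c v w)))

def run : List ℕ → ℕ → ℕ
  | [], dead => dead
  | m :: l, dead => run l (if stepOK (m / 16) (m % 16) dead then dead ||| 2 ^ (m / 16) else dead)

/-- all numbers `c + s` where `s` has exactly `k` bits, among the first `i` bits, satisfy `P` -/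
def allSub : ℕ → ℕ → ℕ → (ℕ → Bool) → Bool
  | 0, 0, c, P => P c
  | 0, _ + 1, _, _ => true
  | i + 1, 0, c, P => allSub i 0 c P
  | i + 1, k + 1, c, P => allSub i (k + 1) c P && allSub i k (c ||| 2 ^ i) P

theorem allSub_spec (P : ℕ → Bool) : ∀ (i k c : ℕ), allSub i k c P = true →
    ∀ S : Finset ℕ, (∀ x ∈ S, x < i) → S.card = k → ∀ m : ℕ,
      (∀ j, m.testBit j = (c.testBit j || decide (j ∈ S))) → P m = true := by
  intro i
  induction i with
  | zero =>
    intro k c h S hS hk m hm
    have hS0 : S = ∅ := by
      rw [Finset.eq_empty_iff_forall_notMem]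
      intro x hx
      exact absurd (hS x hx) (by omega)
    subst hS0
    simp only [Finset.card_empty] at hk
    subst hk
    have : m = c := by
      refine Nat.eq_of_testBit_eq fun j => ?_
      rw [hm j]; simp
    rw [this]
    simpa [allSub] using h
  | succ i ih =>
    intro k c h S hS hk m hm
    by_cases hi : i ∈ S
    · obtain ⟨k', rfl⟩ : ∃ k', k = k' + 1 := by
        refine ⟨k - 1, ?_⟩
        have : 0 < S.card := Finset.card_pos.mpr ⟨i, hi⟩
        omega
      simp only [allSub, Bool.and_eq_true] at h
      refine ih k' (c ||| 2 ^ i) h.2 (S.erase i) ?_ ?_ m ?_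
      · intro x hx
        rw [Finset.mem_erase] at hx
        have := hS x hx.2
        omega
      · rw [Finset.card_erase_of_mem hi, hk]; rfl
      · intro j
        rw [hm j, Nat.testBit_lor, Nat.testBit_two_pow]
        by_cases hj : i = j
        · subst hj; simp [hi]
        · have hj' : j ≠ i := fun h => hj h.symm
          simp [hj, hj']
    · have h' : allSub i k c P = true := by
        cases k with
        | zero => simpa [allSub] using h
        | succ k => simp only [allSub, Bool.and_eq_true] at h; exact h.1
      refine ih k c h' S ?_ hk m hm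
      intro x hx
      have h1 := hS x hx
      have h2 : x ≠ i := fun h => hi (h ▸ hx)
      omega

theorem allSub_code {P : ℕ → Bool} {k : ℕ} (h : allSub 14 k 0 P = true) (D : Finset (Fin 14))
    (hD : D.card = k) : P (code D) = true := by
  refine allSub_spec P 14 k 0 h (D.map Fin.valEmbedding) ?_ ?_ _ ?_
  · intro x hx
    simp only [Finset.mem_map, Fin.valEmbedding_apply] at hx
    obtain ⟨a, -, rfl⟩ := hx
    exact a.2
  · rw [Finset.card_map, hD]
  · intro j
    rw [testBit_code]
    simp only [Nat.zero_testBit, Bool.false_or, Finset.mem_map, Fin.valEmbedding_apply]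
    congr 1
    apply propext
    constructor
    · rintro ⟨h, hj⟩
      exact ⟨⟨j, h⟩, hj, rfl⟩
    · rintro ⟨a, ha, rfl⟩
      exact ⟨a.2, ha⟩

theorem nbrs_lt (x : Fin 14) : ∀ y ∈ nbrs x, y < 14 := by revert x; decide

theorem dom_code {D : Finset (Fin 14)} (h : IsDominating P72 D) : dom (code D) = true := by
  unfold dom
  rw [List.all_eq_true]
  intro x hx
  rw [List.mem_range] at hx
  rw [Bool.or_eq_true, List.any_eq_true]
  rcases h ⟨x, hx⟩ with h | ⟨u, hu, hadj⟩
  · left
    rw [testBit_code]
    simpa using ⟨hx, h⟩
  · right
    refine ⟨u, hadj.symm, ?_⟩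
    rw [testBit_code']
    simpa using hu

theorem code_move {D : Finset (Fin 14)} {v w : Fin 14} (hv : v ∈ D) (hw : w ∉ D) :
    code ((D ∪ {w}) \ {v}) = move (code D) v w := by
  refine Nat.eq_of_testBit_eq fun j => ?_
  unfold move
  rw [Nat.testBit_xor, Nat.testBit_lor, Nat.testBit_two_pow, Nat.testBit_two_pow]
  by_cases hj : j < 14
  · obtain ⟨j, rfl⟩ : ∃ j' : Fin 14, (j' : ℕ) = j := ⟨⟨j, hj⟩, rfl⟩
    rw [testBit_code', testBit_code']
    by_cases h1 : v = j
    · subst h1
      simp [hv]
    · have h1' : (v : ℕ) ≠ j := fun h => h1 (Fin.ext h)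
      have h1'' : j ≠ v := fun h => h1 h.symm
      by_cases h2 : w = j
      · subst h2
        simp [h1', h1'']
      · have h2' : (w : ℕ) ≠ j := fun h => h2 (Fin.ext h)
        have h2'' : j ≠ w := fun h => h2 h.symm
        simp [h1', h1'', h2', h2'']
  · rw [testBit_code, testBit_code]
    have h1 : (v : ℕ) ≠ j := by have := v.2; omega
    have h2 : (w : ℕ) ≠ j := by have := w.2; omega
    simp [hj, h1, h2]

theorem run_sound {k l : ℕ} {D : Fin l → Finset (Fin 14)} (hD : IsEternalFamily P72 k l D) :
    ∀ (L : List ℕ) (dead : ℕ), (∀ i, dead.testBit (code (D i)) = false) →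
      ∀ i, (run L dead).testBit (code (D i)) = false := by
  intro L
  induction L with
  | nil => intro dead h i; exact h i
  | cons m L ih =>
    intro dead h
    unfold run
    refine ih _ fun i => ?_
    split_ifs with hs
    · rw [Nat.testBit_lor, h i, Bool.false_or, Nat.testBit_two_pow]
      rw [decide_eq_false_iff_not]
      intro hc
      rw [hc] at hs
      simp only [stepOK, Bool.and_eq_true] at hs
      obtain ⟨⟨h1, h2⟩, h3⟩ := hs
      rw [testBit_code] at h1
      simp only [decide_eq_true_eq] at h1
      obtain ⟨hv, hvD⟩ := h1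
      rcases hD.move i ⟨m % 16, hv⟩ hvD with hall | ⟨w, hw, hwD, j, -, hj⟩
      · rw [List.any_eq_true] at h2
        obtain ⟨w, hw, hw2⟩ := h2
        have hw14 := nbrs_lt ⟨m % 16, hv⟩ w hw
        have := hall ⟨w, hw14⟩ hw
        rw [testBit_code] at hw2
        simp [hw14, this] at hw2
      · rw [List.all_eq_true] at h3
        have h4 := h3 w hw
        rw [testBit_code'] at h4
        have h5 := code_move hvD hwD
        rw [hj] at h5
        simp only at h5
        rw [← h5, dom_code (hD.dom j), h j] at h4
        simp [hwD] at h4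
    · exact h i

/-- the certificate: the list of the numbers `16 c + v`, where `c` is the code of a lost position
and `v` is the attacked vertex, in the order in which the positions are seen to be lost -/
def cert : List ℕ :=
  [3495, 4952, 6452, 6484, 6548, 6948, 6984, 7047, 7460, 7559, 9897, 11427, 12885, 12901, 12965,
   13080, 13093, 13893, 13961, 14088, 14612, 14917, 14984, 15112, 15624, 17754, 20816, 25750,
   25766, 25798, 25882, 25926, 26137, 26153, 26182, 29209, 29221, 29830, 29961, 30217, 31237,
   33467, 41633, 49456, 49488, 49552, 49723, 49808, 50234, 50266, 50320, 57616, 57882, 58394,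
   58410, 58438, 62470, 66924, 68897, 83266, 98427, 98491, 98609, 98913, 98977, 99105, 99436,
   99617, 114747, 114779, 114832, 115233, 115755, 122896, 131805, 133523, 133543, 133575, 133779,
   133837, 134291, 134307, 134339, 135762, 137508, 137543, 137607, 137863, 138371, 145668,
   164496, 196829, 196844, 196972, 197202, 197218, 197826, 197954, 198210, 198803, 198829,
   198861, 198989, 199234, 202883, 229468, 229484, 229548, 229665, 230466, 231490, 245793, 7490,
   12944, 15491, 19754, 19783, 25889, 28944, 35495, 36011, 37467, 37528, 39563, 49746, 52263,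
   57889, 69980, 70984, 74924, 75049, 79116, 99491, 102488, 115778, 133793, 137794, 139929,
   139949, 147805, 148058, 149834, 156189, 196944, 198945, 204969, 229520, 39490, 40011, 40070,
   51749, 51783, 52290, 77980, 78096, 78979, 102547, 103494, 103560, 149793, 150058, 150085,
   155924, 155949, 156193, 204944, 205081, 205092, 3511, 4984, 6516, 6580, 6612, 6964, 7000,
   7016, 7476, 7575, 7591, 7972, 9961, 11443, 11491, 12917, 13029, 13112, 13144, 13157, 13221,
   13909, 13925, 13993, 14025, 14644, 14680, 14936, 14949, 15128, 15144, 15176, 15240, 16136,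
   17882, 20848, 20944, 22836, 22868, 22932, 23431, 25782, 25814, 25830, 25946, 26010, 26054,
   26217, 26281, 26310, 26438, 27798, 27814, 27846, 28185, 29285, 29353, 29865, 29894, 30233,
   30249, 30281, 30345, 30473, 31257, 31269, 31301, 31368, 31496, 32265, 33723, 39220, 41697,
   41889, 45669, 45733, 45861, 46856, 47380, 47880, 48392, 49520, 49584, 49616, 49851, 49979,
   50064, 50394, 50522, 50576, 50832, 51600, 53552, 53584, 53648, 54330, 57690, 57744, 58426,
   58458, 58522, 58566, 58650, 58698, 58906, 59664, 59930, 60442, 62490, 62506, 62534, 62598,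
   62729, 62985, 67436, 68913, 69409, 71988, 72484, 72583, 72996, 78437, 80453, 80520, 80648,
   83394, 83778, 91334, 91462, 91673, 91718, 94745, 94757, 95753, 96773, 98747, 99003, 99041,
   99121, 99169, 99233, 99633, 99692, 99948, 100129, 100475, 100657, 101153, 101665, 103201,
   106619, 107105, 107169, 107297, 114811, 114875, 115003, 115088, 115259, 115355, 115371,
   115489, 115771, 116795, 116827, 116880, 118843, 119329, 119851, 122939, 122971, 123024,
   123152, 123418, 123930, 124944, 132829, 133559, 133853, 134035, 134323, 134355, 134371,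
   134547, 134567, 134803, 134861, 135794, 136786, 137524, 137623, 137639, 137671, 138119,
   138387, 138407, 138535, 138631, 141767, 142483, 142499, 142531, 143957, 143973, 144965,
   145160, 145684, 145700, 145735, 145799, 146184, 146696, 150675, 153991, 154247, 154755,
   156870, 160902, 161033, 161289, 164752, 165520, 166291, 166343, 166547, 167059, 170276,
   170311, 170375, 178436, 180624, 180880, 181306, 181392, 189466, 189482, 189510, 193542,
   197234, 197341, 197484, 197853, 197996, 198082, 198226, 198242, 198338, 198466, 198877,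
   198893, 199117, 199261, 199325, 199373, 199827, 199885, 200258, 200940, 201298, 201314,
   202306, 202899, 202925, 202957, 203143, 203399, 203907, 206402, 207053, 207181, 207426,
   213228, 214210, 214338, 214594, 215187, 215213, 215245, 219267, 229500, 229612, 229740,
   229996, 230177, 230508, 230700, 230732, 230978, 231516, 231532, 231629, 231757, 232002,
   232514, 233580, 233644, 233761, 237660, 237676, 238658, 239682, 245819, 245868, 245932,
   246049, 246305, 246827, 249889, 7059, 7077, 14116, 14150, 14995, 15011, 15043, 15512, 15528,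
   15560, 15638, 15654, 15686, 19770, 19863, 19911, 23850, 23942, 26197, 26256, 27924, 27975,
   28985, 29017, 29081, 29232, 29264, 29328, 29988, 30020, 30084, 30996, 31878, 35255, 35751,
   36027, 37499, 37688, 37784, 39819, 45659, 45840, 50358, 50481, 52279, 53813, 53912, 55947,
   56359, 57941, 57962, 58005, 58026, 58133, 58154, 58465, 58529, 58657, 61712, 61989, 70012,
   70504, 71496, 72028, 72514, 74988, 75369, 75561, 79628, 91308, 91681, 98672, 98930, 100531,
   101031, 102520, 104536, 105099, 107622, 107817, 110680, 111884, 114898, 115026, 115282,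
   115878, 115915, 116006, 116043, 116262, 116299, 123425, 123974, 133588, 134594, 137554,
   137570, 137815, 137831, 137877, 137893, 138562, 138823, 138885, 140013, 140953, 141001,
   141977, 142021, 144045, 145027, 145989, 146563, 147933, 148698, 149082, 149962, 157213,
   158026, 158237, 166305, 167083, 180573, 181330, 182602, 183335, 197345, 197859, 198833,
   198973, 198996, 199329, 199469, 199492, 199841, 199981, 200004, 201060, 202056, 203044,
   203330, 205033, 209065, 210188, 213200, 213594, 221353, 221725, 229712, 229788, 229795,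
   229968, 230044, 230051, 230480, 230556, 230563, 231571, 231713, 245904, 246850, 7106, 7506,
   7522, 8070, 12976, 13008, 14096, 14211, 14739, 15941, 19794, 19873, 23333, 25953, 26017,
   26161, 26388, 28229, 29476, 29840, 35509, 36262, 37555, 37714, 39259, 39320, 39515, 39531,
   39579, 39595, 39719, 40091, 40107, 40235, 40267, 46662, 47687, 48203, 49874, 50002, 50290,
   50741, 51514, 51543, 51799, 51863, 51879, 52007, 52379, 52391, 52423, 52519, 52551, 54422,
   55845, 56454, 57648, 58949, 59975, 60487, 70480, 71014, 72083, 75108, 75427, 78140, 78172,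
   78428, 78492, 78508, 78633, 79020, 79052, 79148, 79180, 79432, 80028, 80153, 91280, 94364,
   95368, 98547, 99446, 99747, 100003, 100962, 102716, 102744, 102808, 103000, 103019, 103064,
   103080, 103592, 103720, 103752, 104008, 104595, 105026, 106800, 110864, 111686, 115297,
   115856, 117287, 117319, 118936, 119944, 133601, 133809, 134085, 134817, 138020, 138434,
   139984, 140961, 141716, 144164, 148181, 148820, 149818, 149850, 149917, 150106, 150170,
   150186, 150698, 150727, 150826, 150858, 151114, 153898, 154154, 155997, 156061, 156253,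
   156269, 156317, 156333, 156825, 156845, 156973, 157005, 157258, 157972, 158277, 160045,
   160298, 167106, 171083, 171144, 180529, 182561, 183362, 188697, 188717, 196848, 197092,
   197456, 197968, 199059, 199265, 201923, 205145, 205401, 205421, 205465, 205481, 205609,
   205977, 205993, 206028, 206121, 206153, 207001, 207129, 209188, 210051, 213601, 215594,
   215623, 221328, 221729, 229680, 230594, 234568, 234632, 237849, 237865, 3558, 4001, 5072,
   5970, 7622, 8002, 9907, 10145, 13200, 13971, 15750, 16003, 17780, 18258, 23362, 25908, 26401,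
   28193, 29456, 29972, 33525, 34483, 39746, 40018, 40034, 40323, 46723, 49781, 50770, 51761,
   51906, 52034, 52306, 54354, 57909, 58913, 66932, 67046, 73094, 78000, 78032, 78608, 79491,
   91412, 99507, 99558, 101478, 102576, 103522, 103811, 104067, 106675, 115794, 115814, 131829,
   132048, 133861, 134049, 137925, 138050, 141729, 144144, 149921, 150065, 150210, 151073,
   156001, 156065, 156944, 157217, 166597, 180789, 196980, 197072, 199012, 199073, 200912,
   205008, 205153, 205584, 206096, 213348, 229555, 229584, 11681, 11937, 20263, 20295, 21328,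
   21842, 35559, 36071, 38488, 38552, 39627, 40139, 40523, 40587, 41651, 42657, 48267, 51815,
   52327, 52775, 52807, 59943, 68964, 69025, 70104, 71112, 74937, 75065, 78236, 79004, 79132,
   79244, 81036, 83282, 83300, 94492, 102616, 103512, 103576, 103624, 117831, 119880, 135888,
   136016, 140185, 140201, 147834, 148090, 149866, 150122, 150314, 150346, 154186, 155965,
   156221, 156445, 156461, 160029, 164531, 164560, 170571, 188973, 204985, 205113, 205209,
   205225, 207145, 215338, 233624, 237721, 19812, 36513, 37584, 43683, 44193, 47749, 55882,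
   56391, 60454, 64008, 64522, 70994, 75169, 76961, 77094, 81156, 85286, 85316, 86354, 87364,
   95494, 105543, 105611, 110744, 111755, 117793, 118864, 127003, 128009, 139955, 148304, 151890,
   152144, 153924, 157993, 158247, 160277, 162055, 162313, 168528, 168597, 170627, 172693,
   172707, 182823, 182858, 188944, 207011, 209048, 209180, 211085, 211208, 215362, 221468,
   221481, 233554, 235596, 235655, 237729, 247851, 247885, 253978, 253996, 23876, 27940, 32004,
   45712, 53840, 61968, 73026, 91425, 101537, 107681, 123937, 141987, 144019, 146051, 166561,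
   180816, 201042, 203074, 213328, 231585, 245840]

def final : Bool :=
  (fun dead => (List.range 7).all fun k => allSub 14 k 0 fun c => !dom c || dead.testBit c)
    (run cert 0)

set_option maxRecDepth 100000 in
theorem final_true : final = true := by decide +kernel

theorem lower {k l : ℕ} {D : Fin l → Finset (Fin 14)} (hD : IsEternalFamily P72 k l D) :
    7 ≤ k := by
  by_contra hk
  push Not at hk
  have hfin := final_true
  unfold final at hfin
  simp only [List.all_eq_true, List.mem_range] at hfin
  have h1 := allSub_code (hfin k hk) (D ⟨0, hD.pos⟩) (hD.card _)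
  rw [dom_code (hD.dom _), run_sound hD cert 0 (by simp)] at h1
  simp at h1

theorem indep_aux : allSub 14 6 0 (fun c => (List.range 14).any fun x => c.testBit x &&
    (nbrs x).any fun y => c.testBit y) = true := by decide +kernel

theorem indepNum_eq : P72.indepNum = 5 := by
  refine le_antisymm ?_ ?_
  · by_contra h
    push Not at h
    obtain ⟨s, hs⟩ := P72.exists_isNIndepSet_indepNum
    obtain ⟨t, ht, htc⟩ := Finset.exists_subset_card_eq (s := s) (n := 6) (by rw [hs.2]; omega)
    have h1 := allSub_code indep_aux t htc
    rw [List.any_eq_true] at h1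
    obtain ⟨x, hx, h2⟩ := h1
    rw [List.mem_range] at hx
    rw [Bool.and_eq_true, List.any_eq_true] at h2
    obtain ⟨h3, y, hy, h4⟩ := h2
    have hy14 := nbrs_lt ⟨x, hx⟩ y hy
    rw [testBit_code] at h3 h4
    simp only [hx, hy14, exists_true_left, decide_eq_true_eq] at h3 h4
    have hadj : P72.Adj ⟨x, hx⟩ ⟨y, hy14⟩ := hy
    exact hs.1 (ht h3) (ht h4) hadj.ne hadj
  · have h : P72.IsIndepSet (({0, 2, 5, 8, 11} : Finset (Fin 14)) : Set (Fin 14)) := by
      intro x hx y hy _
      revert x y
      decide
    exact h.card_le_indepNum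

/-- the endpoints of the spokes chosen by the bits of `i` -/
def fam (i : Fin 128) : Finset (Fin 14) :=
  Finset.univ.filter fun x => Nat.testBit i (x % 7) = decide ((x : ℕ) < 7)

def partner (x : Fin 14) : Fin 14 := ⟨(x + 7) % 14, Nat.mod_lt _ (by norm_num)⟩

def flip (i : Fin 128) (x : Fin 14) : Fin 128 := ⟨(i ^^^ 2 ^ (x % 7 : ℕ)) % 128, Nat.mod_lt _ (by norm_num)⟩

theorem fam_prop : ∀ i : Fin 128, (fam i).card = 7 ∧
    (∀ v : Fin 14, v ∈ fam i ∨ (partner v ∈ fam i ∧ P72.Adj (partner v) v)) ∧
    ∀ v : Fin 14, v ∈ fam i → P72.Adj v (partner v) ∧ partner v ∉ fam i ∧ flip i v ≠ i ∧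
      (fam i ∪ {partner v}) \ {v} = fam (flip i v) := by decide +kernel

theorem upper : ∃ (l : ℕ) (D : Fin l → Finset (Fin 14)), IsEternalFamily P72 7 l D := by
  refine ⟨128, fam, by norm_num, fun i v => ?_, fun i => (fam_prop i).1, fun i v hv => ?_⟩
  · rcases (fam_prop i).2.1 v with h | h
    · exact Or.inl h
    · exact Or.inr ⟨_, h⟩
  · obtain ⟨h1, h2, h3, h4⟩ := (fam_prop i).2.2 v hv
    exact Or.inr ⟨_, h1, h2, _, h3, h4⟩

/-- The generalized Petersen graph `P(7,2)` has independence number `5` and eviction number `7`;
so its eviction number is larger than `4/3` times its independence number. -/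
theorem result : P72.indepNum = 5 ∧ evictionNumber P72 = 7 ∧
    4 * P72.indepNum < 3 * evictionNumber P72 := by
  have h : evictionNumber P72 = 7 := by
    unfold evictionNumber
    refine le_antisymm (Nat.sInf_le upper) (le_csInf ⟨7, upper⟩ ?_)
    rintro k ⟨l, D, hD⟩
    exact lower hD
  refine ⟨indepNum_eq, h, ?_⟩
  rw [h, indepNum_eq]
  norm_num

end Pool.Agent.Results.MP_cdfd58_co.GeneralizedPetersen
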